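import Mathlib

/-! Definitions for F-pure regularity. -/

set_option autoImplicit false

namespace Pool.Agent.V113.FPR

universe u v w

/-- The `R`-module `F^e_* R`: the additive group of `R` with `r • s = r ^ (p ^ e) * s`. -/
def FrobMod (R : Type u) (_p _e : ℕ) : Type u := R

instance (R : Type u) [CommRing R] (p e : ℕ) : AddCommGroup (FrobMod R p e) :=
  inferInstanceAs (AddCommGroup R)

noncomputable instance (R : Type u) [CommRing R] (p e : ℕ) [ExpChar R p] :
    Module R (FrobMod R p e) :=
  Module.compHom R (iterateFrobenius R p e)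

/-- The map `λ^e_c : R → F^e_* R`, `r ↦ c * r ^ (p ^ e)`. -/
noncomputable def lam (R : Type u) [CommRing R] (p e : ℕ) [ExpChar R p] (c : R) :
    R →ₗ[R] FrobMod R p e where
  toFun r := (c * r ^ p ^ e : R)
  map_add' a b := by
    have h : (a + b) ^ p ^ e = a ^ p ^ e + b ^ p ^ e := by
      have := (iterateFrobenius R p e).map_add a b
      simpa [iterateFrobenius_def] using this
    change (c * (a + b) ^ p ^ e : R) = (c * a ^ p ^ e : R) + (c * b ^ p ^ e : R)
    rw [h, mul_add]
  map_smul' a b := by
    change (c * (a * b) ^ p ^ e : R) = (a ^ p ^ e * (c * b ^ p ^ e) : R)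
    rw [mul_pow]; ring

/-- A map of `R`-modules is pure if it stays injective after tensoring with every `R`-module. -/
def IsPureMap {R : Type u} [CommRing R] {M : Type v} {N : Type w} [AddCommGroup M]
    [AddCommGroup N] [Module R M] [Module R N] (f : M →ₗ[R] N) : Prop :=
  ∀ (P : Type u) [AddCommGroup P] [Module R P], Function.Injective (LinearMap.rTensor P f)

/-- `R` is F-pure regular: for every `c` in no minimal prime there is `e ≥ 1` with `λ^e_c`
pure. -/
def FPureRegular (R : Type u) [CommRing R] (p : ℕ) [ExpChar R p] : Prop :=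
  ∀ c : R, (∀ 𝔮 ∈ minimalPrimes R, c ∉ 𝔮) → ∃ e : ℕ, 1 ≤ e ∧ IsPureMap (lam R p e c)

/-- The regular locus of `A` contains a nonempty open subset of `Spec A`. -/
def IsJ0 (A : Type u) [CommRing A] : Prop :=
  ∃ U : Set (PrimeSpectrum A), IsOpen U ∧ U.Nonempty ∧
    ∀ x ∈ U, IsRegularLocalRing (Localization.AtPrime x.asIdeal)

/-- `R` is J-2: every finitely generated `R`-algebra has an open regular locus. -/
def IsJ2 (R : Type u) [CommRing R] : Prop :=
  ∀ (A : Type u) [CommRing A] [Algebra R A] [Algebra.FiniteType R A],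
    IsOpen {x : PrimeSpectrum A | IsRegularLocalRing (Localization.AtPrime x.asIdeal)}

end Pool.Agent.V113.FPR
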