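import Pool.Agent.V113.FPR.Ord
import Pool.Agent.V113.FPR.Defs

/-! Local charts along a prime with regular quotient. -/

set_option autoImplicit false

open IsLocalRing

namespace Pool.Agent.V113.FPR

universe u

theorem height_comap_ge {W C : Type u} [CommRing W] [CommRing C] (θ : W →+* C)
    (hθ : Function.Surjective θ) (n : ℕ) : ∀ (P : Ideal C) [P.IsPrime], (n : ℕ∞) ≤ P.height →
      (RingHom.ker θ).height + n ≤ (P.comap θ).height := by
  induction n with
  | zero =>
    intro P _ _
    simp only [Nat.cast_zero, add_zero]
    apply Ideal.height_mono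
    intro x hx
    rw [Ideal.mem_comap, (RingHom.mem_ker).1 hx]
    exact P.zero_mem
  | succ n ih =>
    intro P _ hP
    have h1 : ¬ P.height ≤ n := by
      intro h
      have h2 : ((n + 1 : ℕ) : ℕ∞) ≤ (n : ℕ∞) := hP.trans h
      have h3 : n + 1 ≤ n := by exact_mod_cast h2
      omega
    rw [Ideal.height_le_iff] at h1
    push Not at h1
    obtain ⟨P', hP', hlt, hge⟩ := h1
    have h2 := ih P' hge
    have hlt' : P'.comap θ < P.comap θ := by
      refine lt_of_le_of_ne (Ideal.comap_mono hlt.le) ?_
      intro h
      exact hlt.ne (Ideal.comap_injective_of_surjective θ hθ h)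
    have h3 := Ideal.height_add_one_le_of_lt_of_isPrime hlt'
    calc (RingHom.ker θ).height + ((n + 1 : ℕ) : ℕ∞)
        = ((RingHom.ker θ).height + n) + 1 := by push_cast; ring
      _ ≤ (P'.comap θ).height + 1 := by gcongr
      _ ≤ _ := h3

theorem chart {R : Type u} [CommRing R] [IsRegularRing R] (P : Ideal R) [P.IsPrime]
    (h : ℕ) (x : Fin h → R) (hxP : ∀ i, x i ∈ P) (hh : P.height = h) (f : R)
    (hf : ∀ y ∈ P, f * y ∈ Ideal.span (Set.range x)) (N : Ideal (R ⧸ P)) [N.IsPrime]
    (hfn : f ∉ N.comap (Ideal.Quotient.mk P))
    (hreg : IsRegularLocalRing (Localization.AtPrime N)) :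
    ∃ (δ : ℕ) (y : Fin δ → Localization.AtPrime (N.comap (Ideal.Quotient.mk P))),
      ringKrullDim (Localization.AtPrime (N.comap (Ideal.Quotient.mk P))) =
        ((h + δ : ℕ) : ℕ) ∧
      Ideal.span (Set.range fun i => algebraMap R
        (Localization.AtPrime (N.comap (Ideal.Quotient.mk P))) (x i)) ⊔
        Ideal.span (Set.range y) =
        maximalIdeal (Localization.AtPrime (N.comap (Ideal.Quotient.mk P))) := by
  classical
  set m := N.comap (Ideal.Quotient.mk P) with hm
  let φ : Localization.AtPrime m →+* Localization.AtPrime N :=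
    Localization.localRingHom m N (Ideal.Quotient.mk P) rfl
  have hφa : ∀ r : R, φ (algebraMap R _ r) = algebraMap (R ⧸ P) _ (Ideal.Quotient.mk P r) :=
    fun r => Localization.localRingHom_to_map _ _ _ rfl r
  have hφs : Function.Surjective φ :=
    RingHom.surjective_localRingHom_of_surjective _ Ideal.Quotient.mk_surjective N
  have hloc : IsLocalHom φ := inferInstance
  obtain ⟨δ, w, hδ, hw⟩ := exists_param (Localization.AtPrime N)
  choose y hy using fun i => hφs (w i)
  have hgen : Ideal.span (Set.range fun i => algebraMap R (Localization.AtPrime m) (x i)) ⊔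
      Ideal.span (Set.range y) = maximalIdeal (Localization.AtPrime m) := by
    have hPm : P ≤ m := by
      intro a ha
      rw [hm, Ideal.mem_comap, Ideal.Quotient.eq_zero_iff_mem.2 ha]
      exact N.zero_mem
    apply le_antisymm
    · rw [sup_le_iff, Ideal.span_le, Ideal.span_le]
      constructor
      · rintro _ ⟨i, rfl⟩
        rw [← Localization.AtPrime.map_eq_maximalIdeal]
        exact Ideal.mem_map_of_mem _ (hPm (hxP i))
      · rintro _ ⟨i, rfl⟩
        have h1 : φ (y i) ∈ maximalIdeal (Localization.AtPrime N) := by
          rw [hy, ← hw]; exact Ideal.subset_span ⟨i, rfl⟩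
        rw [SetLike.mem_coe, mem_maximalIdeal, mem_nonunits_iff]
        intro hu
        exact (mem_maximalIdeal _).1 h1 (hu.map φ)
    · intro t ht
      have h1 : φ t ∈ maximalIdeal (Localization.AtPrime N) := by
        rw [mem_maximalIdeal, mem_nonunits_iff]
        intro hu
        exact (mem_maximalIdeal _).1 ht (isUnit_of_map_unit φ t hu)
      rw [← hw] at h1
      obtain ⟨b, hb⟩ := (Ideal.mem_span_range_iff_exists_fun).1 h1
      choose b' hb' using fun i => hφs (b i)
      have h2 : φ (t - ∑ i, b' i * y i) = 0 := by
        rw [map_sub, map_sum, ← hb, sub_eq_zero]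
        refine Finset.sum_congr rfl fun i _ => ?_
        rw [map_mul, hb', hy]
      have h3 : t - ∑ i, b' i * y i ∈
          Ideal.span (Set.range fun i => algebraMap R (Localization.AtPrime m) (x i)) := by
        obtain ⟨r, s, hrs⟩ := IsLocalization.exists_mk'_eq m.primeCompl (t - ∑ i, b' i * y i)
        have h4 : algebraMap R (Localization.AtPrime m) r =
            algebraMap R (Localization.AtPrime m) s * (t - ∑ i, b' i * y i) := by
          rw [← hrs, mul_comm, IsLocalization.mk'_spec]
        have h5 : algebraMap (R ⧸ P) (Localization.AtPrime N) (Ideal.Quotient.mk P r) = 0 := by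
          rw [← hφa, h4, map_mul, h2, mul_zero]
        rw [IsLocalization.map_eq_zero_iff N.primeCompl] at h5
        obtain ⟨s', hs'⟩ := h5
        obtain ⟨s'', hs''⟩ := Ideal.Quotient.mk_surjective (s' : R ⧸ P)
        have h6 : s'' * r ∈ P := by
          rw [← Ideal.Quotient.eq_zero_iff_mem, map_mul, hs'', hs']
        have h7 : s'' ∉ P := by
          intro h8
          have h9 : (s' : R ⧸ P) = 0 := by
            rw [← hs'']; exact Ideal.Quotient.eq_zero_iff_mem.2 h8
          exact s'.2 (by rw [h9]; exact N.zero_mem)
        have h8 : r ∈ P := ((inferInstance : P.IsPrime).mem_or_mem h6).resolve_left h7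
        have h9 := Ideal.mem_map_of_mem (algebraMap R (Localization.AtPrime m)) (hf r h8)
        rw [Ideal.map_span, ← Set.range_comp, map_mul, h4, ← mul_assoc] at h9
        have hu : IsUnit (algebraMap R (Localization.AtPrime m) f *
            algebraMap R (Localization.AtPrime m) s) :=
          (IsLocalization.map_units (M := m.primeCompl) _ (⟨f, hfn⟩ : m.primeCompl)).mul
            (IsLocalization.map_units _ s)
        rw [Ideal.unit_mul_mem_iff_mem _ hu] at h9
        exact h9
      have h4 : t = (t - ∑ i, b' i * y i) + ∑ i, b' i * y i := by ring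
      rw [h4]
      exact Ideal.add_mem _ (Ideal.mem_sup_left h3)
        (Ideal.mem_sup_right (Ideal.sum_mem _ fun i _ => Ideal.mul_mem_left _ _
          (Ideal.subset_span ⟨i, rfl⟩)))
  refine ⟨δ, y, le_antisymm ?_ ?_, hgen⟩
  · rw [← (isRegularLocalRing_iff (Localization.AtPrime m)).1 inferInstance, ← hgen,
      ← Ideal.span_union]
    have h1 := Submodule.spanFinrank_span_le_ncard_of_finite (R := Localization.AtPrime m)
      (M := Localization.AtPrime m)
      (s := (Set.range fun i => algebraMap R (Localization.AtPrime m) (x i)) ∪ Set.range y)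
      ((Set.finite_range _).union (Set.finite_range _))
    have h2 : ((Set.range fun i => algebraMap R (Localization.AtPrime m) (x i)) ∪
        Set.range y).ncard ≤ h + δ := by
      refine (Set.ncard_union_le _ _).trans (add_le_add ?_ ?_)
      · rw [← Set.image_univ]
        refine (Set.ncard_image_le Set.finite_univ).trans ?_
        rw [Set.ncard_univ, Nat.card_fin]
      · rw [← Set.image_univ]
        refine (Set.ncard_image_le Set.finite_univ).trans ?_
        rw [Set.ncard_univ, Nat.card_fin]
    exact_mod_cast h1.trans h2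
  · rw [IsLocalization.AtPrime.ringKrullDim_eq_height m]
    rw [IsLocalization.AtPrime.ringKrullDim_eq_height N] at hδ
    have hδ' : N.height = δ := by exact_mod_cast hδ
    have h1 := height_comap_ge (Ideal.Quotient.mk P) Ideal.Quotient.mk_surjective δ N hδ'.ge
    rw [Ideal.mk_ker, hh] at h1
    exact_mod_cast h1

end Pool.Agent.V113.FPR
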