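import Mathlib

/-! A local criterion for flatness in terms of lifting of relations. -/

set_option autoImplicit false

open scoped TensorProduct

namespace Pool.Agent.V113.FPR

universe u v

/-- Relation lifting for `A → B` modulo `x ∈ A` and the ideal `K` of `B`. -/
def RelMod {A : Type u} {B : Type v} [CommRing A] [CommRing B] (f : A →+* B) (x : A)
    (K : Ideal B) : Prop :=
  ∀ (n : ℕ) (a : Fin n → A) (b : Fin n → B), ∑ i, f (a i) * b i ∈ K →
    ∃ (κ : Type) (_ : Fintype κ) (c : Fin n → κ → A) (y : κ → B),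
      (∀ i, b i - ∑ j, f (c i j) * y j ∈ K) ∧ ∀ j, ∑ i, a i * c i j ∈ Ideal.span {x}

section Crit

variable {A : Type u} {B : Type v} [CommRing A] [CommRing B] [Algebra A B]

/-- The ideal `(I : x)`. -/
def Col (I : Ideal A) (x : A) : Ideal A := Submodule.comap (LinearMap.lsmul A A x) I

theorem mem_Col {I : Ideal A} {x s : A} : s ∈ Col I x ↔ x * s ∈ I := Iff.rfl

/-- multiplication by `x`. -/
def mulX (I : Ideal A) (x : A) : Col I x →ₗ[A] I where
  toFun s := ⟨x * s, s.2⟩
  map_add' a b := Subtype.ext (by simp [mul_add])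
  map_smul' r a := Subtype.ext (by simp [mul_left_comm])

/-- The first map. -/
def mf (I : Ideal A) (x : A) : Col I x →ₗ[A] (I × A) :=
  LinearMap.prod (-(mulX I x)) (Submodule.subtype _)

/-- The second map. -/
def mg (I : Ideal A) (x : A) : (I × A) →ₗ[A] (I ⊔ Ideal.span {x} : Ideal A) :=
  LinearMap.coprod (Submodule.inclusion le_sup_left)
    (LinearMap.toSpanSingleton A _ ⟨x, Ideal.mem_sup_right (Ideal.mem_span_singleton_self x)⟩)

theorem mg_apply (I : Ideal A) (x : A) (p : I × A) : ((mg I x p : _) : A) = p.1 + p.2 * x := by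
  simp [mg]

theorem mfg_exact (I : Ideal A) (x : A) : Function.Exact (mf I x) (mg I x) := by
  intro p
  constructor
  · intro h
    have h1 : (p.1 : A) + p.2 * x = 0 := by rw [← mg_apply, h]; rfl
    have h2 : x * p.2 ∈ I := by
      have : x * p.2 = -(p.1 : A) := by linear_combination h1
      rw [this]; exact I.neg_mem p.1.2
    refine ⟨⟨p.2, h2⟩, ?_⟩
    apply Prod.ext
    · apply Subtype.ext
      change -(x * p.2) = (p.1 : A)
      linear_combination -h1
    · rfl
  · rintro ⟨s, rfl⟩
    apply Subtype.ext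
    rw [mg_apply]
    simp [mf, mulX, mul_comm]

theorem mg_surj (I : Ideal A) (x : A) : Function.Surjective (mg I x) := by
  rintro ⟨y, hy⟩
  obtain ⟨a, ha, b, hb, rfl⟩ := Submodule.mem_sup.1 hy
  obtain ⟨c, rfl⟩ := Ideal.mem_span_singleton'.1 hb
  refine ⟨(⟨a, ha⟩, c), ?_⟩
  apply Subtype.ext
  rw [mg_apply]

/-- The exact sequence step. -/
theorem step (x : A) (I : Ideal A) (hsup : Function.Injective
      (LinearMap.lTensor B (Submodule.subtype (I ⊔ Ideal.span {x} : Ideal A))))
    (w : B ⊗[A] I) (hw : (LinearMap.lTensor B (Submodule.subtype I)) w = 0) :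
    ∃ v : B ⊗[A] (Col I x),
      (LinearMap.lTensor B (Submodule.subtype (Col I x))) v = 0 ∧
      w = -(LinearMap.lTensor B (mulX I x)) v := by
  have hex := lTensor_exact B (mfg_exact I x) (mg_surj I x)
  have h1 : (LinearMap.lTensor B (mg I x)) ((LinearMap.lTensor B (LinearMap.inl A I A)) w) = 0 := by
    apply hsup
    rw [map_zero]
    have : (Submodule.subtype (I ⊔ Ideal.span {x} : Ideal A)) ∘ₗ (mg I x) ∘ₗ
        (LinearMap.inl A I A) = Submodule.subtype I := by
      ext s
      simp [mg]
    rw [← hw, ← this, LinearMap.lTensor_comp, LinearMap.lTensor_comp]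
    rfl
  obtain ⟨v, hv⟩ := (hex _).1 h1
  refine ⟨v, ?_, ?_⟩
  · have h2 : (LinearMap.snd A I A) ∘ₗ (mf I x) = Submodule.subtype (Col I x) := by
      ext s; rfl
    have h3 : (LinearMap.snd A I A) ∘ₗ (LinearMap.inl A I A) = 0 := by
      ext s; rfl
    rw [← h2, LinearMap.lTensor_comp, LinearMap.comp_apply, hv, ← LinearMap.comp_apply,
      ← LinearMap.lTensor_comp, h3, LinearMap.lTensor_zero, LinearMap.zero_apply]
  · have h2 : (LinearMap.fst A I A) ∘ₗ (mf I x) = -(mulX I x) := by
      ext s; rfl
    have h3 : (LinearMap.fst A I A) ∘ₗ (LinearMap.inl A I A) = LinearMap.id := by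
      ext s; rfl
    have h4 : -(LinearMap.lTensor B (mulX I x)) v = (LinearMap.lTensor B (-(mulX I x))) v := by
      rw [LinearMap.lTensor_neg, LinearMap.neg_apply]
    rw [h4, ← h2, LinearMap.lTensor_comp, LinearMap.comp_apply, hv, ← LinearMap.comp_apply,
      ← LinearMap.lTensor_comp, h3, LinearMap.lTensor_id, LinearMap.id_apply]

/-- Writing an element of a tensor product as a finite sum. -/
theorem exists_fin_sum (I : Ideal A) (w : B ⊗[A] I) : ∃ (n : ℕ) (b : Fin n → B) (a : Fin n → I),
    w = ∑ i, b i ⊗ₜ[A] a i := by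
  induction w with
  | zero => exact ⟨0, Fin.elim0, Fin.elim0, by simp⟩
  | tmul b a => exact ⟨1, fun _ => b, fun _ => a, by simp⟩
  | add w1 w2 h1 h2 =>
    obtain ⟨n1, b1, a1, rfl⟩ := h1
    obtain ⟨n2, b2, a2, rfl⟩ := h2
    refine ⟨n1 + n2, Fin.append b1 b2, Fin.append a1 a2, ?_⟩
    rw [Fin.sum_univ_add]
    simp

theorem base (x : A) (hreg : algebraMap A B x ∈ nonZeroDivisors B)
    (hrel : RelMod (algebraMap A B) x (Ideal.span {algebraMap A B x})) (I : Ideal A) (hxI : x ∈ I) :
    Function.Injective (LinearMap.lTensor B (Submodule.subtype I)) := by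
  rw [injective_iff_map_eq_zero]
  intro w hw
  obtain ⟨n, b, a, rfl⟩ := exists_fin_sum I w
  have h1 : ∑ i, algebraMap A B (a i) * b i = 0 := by
    have := congrArg (TensorProduct.rid A B) hw
    rw [map_sum, map_sum, map_zero] at this
    rw [← this]
    refine Finset.sum_congr rfl fun i _ => ?_
    simp [Algebra.smul_def]
  obtain ⟨κ, _, c, y, hb, hc⟩ := hrel n (fun i => (a i : A)) b (by rw [h1]; exact Ideal.zero_mem _)
  have hb' : ∀ i, ∃ z, b i = ∑ j, algebraMap A B (c i j) * y j + algebraMap A B x * z := by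
    intro i
    obtain ⟨z, hz⟩ := Ideal.mem_span_singleton'.1 (hb i)
    exact ⟨z, by linear_combination -hz⟩
  choose z hz using hb'
  have hc' : ∀ j, ∃ d, ∑ i, (a i : A) * c i j = d * x := by
    intro j
    obtain ⟨d, hd⟩ := Ideal.mem_span_singleton'.1 (hc j)
    exact ⟨d, hd.symm⟩
  choose d hd using hc'
  set xI : I := ⟨x, hxI⟩ with hxI'
  have key : (∑ i, b i ⊗ₜ[A] a i) =
      (∑ j, algebraMap A B (d j) * y j + ∑ i, algebraMap A B (a i) * z i) ⊗ₜ[A] xI := by
    have e1 : ∀ i, b i ⊗ₜ[A] a i = ∑ j, y j ⊗ₜ[A] (c i j • a i) +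
        (algebraMap A B (a i) * z i) ⊗ₜ[A] xI := by
      intro i
      conv_lhs => rw [hz i]
      rw [TensorProduct.add_tmul, TensorProduct.sum_tmul]
      congr 1
      · refine Finset.sum_congr rfl fun j _ => ?_
        rw [← Algebra.smul_def, TensorProduct.smul_tmul]
      · rw [← Algebra.smul_def, ← Algebra.smul_def, TensorProduct.smul_tmul,
          TensorProduct.smul_tmul]
        congr 1
        apply Subtype.ext
        simp [hxI', mul_comm]
    rw [Finset.sum_congr rfl fun i _ => e1 i, Finset.sum_add_distrib, Finset.sum_comm,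
      TensorProduct.add_tmul, TensorProduct.sum_tmul, TensorProduct.sum_tmul]
    congr 1
    refine Finset.sum_congr rfl fun j _ => ?_
    rw [← TensorProduct.tmul_sum, ← Algebra.smul_def, TensorProduct.smul_tmul]
    congr 1
    apply Subtype.ext
    rw [Submodule.coe_sum]
    simp only [Submodule.coe_smul, smul_eq_mul, hxI']
    rw [← hd j]
    exact Finset.sum_congr rfl fun i _ => mul_comm _ _
  rw [key] at hw ⊢
  have h2 := congrArg (TensorProduct.rid A B) hw
  rw [map_zero] at h2
  simp only [LinearMap.lTensor_tmul, Submodule.coe_subtype, hxI', TensorProduct.rid_tmul,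
    Algebra.smul_def] at h2
  have h3 := (mem_nonZeroDivisors_iff.1 hreg).1 _ h2
  rw [h3, TensorProduct.zero_tmul]

theorem flat_of_relMod [IsNoetherianRing A] [IsLocalRing B] [IsNoetherianRing B] (x : A)
    (hx : algebraMap A B x ∈ IsLocalRing.maximalIdeal B)
    (hreg : algebraMap A B x ∈ nonZeroDivisors B)
    (hrel : RelMod (algebraMap A B) x (Ideal.span {algebraMap A B x})) : Module.Flat A B := by
  rw [Module.Flat.iff_lTensor_injective']
  intro I
  induction I using IsNoetherian.induction with
  | hgt I ih =>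
  by_cases hxI : x ∈ I
  · exact base x hreg hrel I hxI
  have hlt : I < I ⊔ Ideal.span {x} := by
    refine lt_of_le_of_ne le_sup_left fun h => hxI ?_
    rw [h]; exact Ideal.mem_sup_right (Ideal.mem_span_singleton_self x)
  have hsup := ih _ hlt
  have hICol : I ≤ Col I x := fun s hs => Ideal.mul_mem_left I x hs
  let K : Submodule B (B ⊗[A] I) := LinearMap.ker ((Submodule.subtype I).baseChange B)
  have hK : ∀ w, w ∈ K ↔ (LinearMap.lTensor B (Submodule.subtype I)) w = 0 := fun w => Iff.rfl
  have hKbot : K = ⊥ := by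
    apply Submodule.eq_bot_of_le_smul_of_le_jacobson_bot (IsLocalRing.maximalIdeal B) K
    · have : Module.Finite A I := inferInstance
      exact IsNoetherian.noetherian K
    · intro w hw
      obtain ⟨v, hv, hwv⟩ := step x I hsup w ((hK w).1 hw)
      by_cases hle : Col I x ≤ I
      · set v' := LinearMap.lTensor B (Submodule.inclusion hle) v with hv'
        have h1 : v' ∈ K := by
          rw [hK, hv', ← LinearMap.comp_apply, ← LinearMap.lTensor_comp]
          exact hv
        have h2 : w = algebraMap A B x • (-v') := by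
          have e : mulX I x = x • (Submodule.inclusion hle) := by
            ext s; rfl
          rw [hwv, e, LinearMap.lTensor_smul, LinearMap.smul_apply, ← hv', smul_neg,
            algebraMap_smul]
        rw [h2]
        exact Submodule.smul_mem_smul hx (K.neg_mem h1)
      · have h0 : v = 0 := by
          apply ih (Col I x) (lt_of_le_not_ge hICol hle)
          rw [hv, map_zero]
        rw [hwv, h0, map_zero, neg_zero]
        exact Submodule.zero_mem _
    · exact IsLocalRing.maximalIdeal_le_jacobson _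
  rw [injective_iff_map_eq_zero]
  intro w hw
  have : w ∈ K := (hK w).2 hw
  rw [hKbot] at this
  exact (Submodule.mem_bot _).1 this

end Crit

end Pool.Agent.V113.FPR
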