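import Pool.Agent.V113.FPR.Crit
import Pool.Agent.H379R3.Reg

/-! Flatness of Frobenius for regular rings of prime characteristic. -/

set_option autoImplicit false

open IsLocalRing

namespace Pool.Agent.V113.FPR

universe u

section

variable (p : ℕ) [hp : Fact p.Prime]

theorem charP_quot {S : Type u} [CommRing S] [CharP S p] (I : Ideal S) [Nontrivial (S ⧸ I)] :
    CharP (S ⧸ I) p := by
  rw [CharP.charP_iff_prime_eq_zero hp.out]
  have : ((p : ℕ) : S ⧸ I) = Ideal.Quotient.mk I ((p : ℕ) : S) := (map_natCast _ p).symm
  rw [this, CharP.cast_eq_zero, map_zero]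

theorem charP_alg {S : Type u} [CommRing S] [CharP S p] (T : Type u) [CommRing T] [Algebra S T]
    [Nontrivial T] : CharP T p := by
  rw [CharP.charP_iff_prime_eq_zero hp.out]
  have : ((p : ℕ) : T) = algebraMap S T ((p : ℕ) : S) := (map_natCast _ p).symm
  rw [this, CharP.cast_eq_zero, map_zero]

omit hp in
theorem rel_of_flat {A B : Type u} [CommRing A] [CommRing B] (f : A →+* B) (hf : f.Flat) {n : ℕ}
    (a : Fin n → A) (b : Fin n → B) (h : ∑ i, f (a i) * b i = 0) :
    ∃ (k : ℕ) (c : Fin n → Fin k → A) (y : Fin k → B),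
      (∀ i, b i = ∑ j, f (c i j) * y j) ∧ ∀ j, ∑ i, a i * c i j = 0 := by
  let _ : Algebra A B := f.toAlgebra
  have : Module.Flat A B := hf
  have h' : ∑ i, a i • b i = 0 := by
    rw [← h]
    exact Finset.sum_congr rfl fun i _ => Algebra.smul_def _ _
  obtain ⟨k, c, y, h1, h2⟩ := Module.Flat.isTrivialRelation_of_sum_smul_eq_zero
    (R := A) (M := B) (ι := Fin n) (f := a) (x := b) h'
  refine ⟨k, c, y, fun i => ?_, h2⟩
  rw [h1 i]
  exact Finset.sum_congr rfl fun j _ => Algebra.smul_def _ _

omit hp in
theorem flat_of_relMod' {A B : Type u} [CommRing A] [CommRing B] (f : A →+* B)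
    [IsNoetherianRing A] [IsLocalRing B] [IsNoetherianRing B] (x : A)
    (hx : f x ∈ IsLocalRing.maximalIdeal B) (hreg : f x ∈ nonZeroDivisors B)
    (hrel : RelMod f x (Ideal.span {f x})) : f.Flat := by
  let _ : Algebra A B := f.toAlgebra
  exact flat_of_relMod x hx hreg hrel

theorem relMod_pow {S : Type u} [CommRing S] [CharP S p] (e : ℕ) (x : S)
    (hx : x ∈ nonZeroDivisors S)
    (h1 : RelMod (iterateFrobenius S p e) x (Ideal.span {x})) (i : ℕ) (hi1 : 1 ≤ i)
    (hi : i ≤ p ^ e) : RelMod (iterateFrobenius S p e) x (Ideal.span {x ^ i}) := by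
  induction i, hi1 using Nat.le_induction with
  | base => simpa using h1
  | succ i hi1 ih =>
    have ih := ih (by omega)
    intro n a b hab
    obtain ⟨κ, _, c, y, hb, hc⟩ := ih n a b (by
      have : Ideal.span {x ^ (i + 1)} ≤ Ideal.span {x ^ i} := by
        rw [Ideal.span_singleton_le_span_singleton]
        exact pow_dvd_pow x (by omega)
      exact this hab)
    have hb' : ∀ i', ∃ z, b i' = ∑ j, iterateFrobenius S p e (c i' j) * y j + x ^ i * z := by
      intro i'
      obtain ⟨z, hz⟩ := Ideal.mem_span_singleton'.1 (hb i')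
      exact ⟨z, by linear_combination -hz⟩
    choose z hz using hb'
    have hsum : ∑ k, iterateFrobenius S p e (a k) * b k =
        ∑ j, iterateFrobenius S p e (∑ k, a k * c k j) * y j +
          x ^ i * ∑ k, iterateFrobenius S p e (a k) * z k := by
      calc ∑ k, iterateFrobenius S p e (a k) * b k
          = ∑ k, (∑ j, iterateFrobenius S p e (a k * c k j) * y j +
              x ^ i * (iterateFrobenius S p e (a k) * z k)) := by
            refine Finset.sum_congr rfl fun k _ => ?_
            rw [hz k, mul_add, Finset.mul_sum]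
            congr 1
            · refine Finset.sum_congr rfl fun j _ => ?_
              rw [map_mul]; ring
            · ring
        _ = _ := by
            rw [Finset.sum_add_distrib, ← Finset.mul_sum, Finset.sum_comm]
            congr 1
            refine Finset.sum_congr rfl fun j _ => ?_
            rw [map_sum, Finset.sum_mul]
    have hz1 : ∑ k, iterateFrobenius S p e (a k) * z k ∈ Ideal.span {x} := by
      have h2 : ∑ j, iterateFrobenius S p e (∑ k, a k * c k j) * y j ∈
          Ideal.span {x ^ (i + 1)} := by
        refine Ideal.sum_mem _ fun j _ => ?_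
        obtain ⟨d, hd⟩ := Ideal.mem_span_singleton'.1 (hc j)
        rw [← hd, map_mul, iterateFrobenius_def, iterateFrobenius_def]
        have h3 : x ^ p ^ e = x ^ (i + 1) * x ^ (p ^ e - (i + 1)) := by
          rw [← pow_add]; congr 1; omega
        rw [h3]
        exact Ideal.mem_span_singleton'.2 ⟨d ^ p ^ e * x ^ (p ^ e - (i + 1)) * y j, by ring⟩
      rw [hsum] at hab
      have h4 := (Ideal.add_mem_iff_right _ h2).1 hab
      obtain ⟨t, ht⟩ := Ideal.mem_span_singleton'.1 h4
      have h5 : x ^ i * (t * x - ∑ k, iterateFrobenius S p e (a k) * z k) = 0 := by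
        linear_combination ht
      have h6 := (mem_nonZeroDivisors_iff.1 (pow_mem hx i)).1 _ h5
      exact Ideal.mem_span_singleton'.2 ⟨t, by linear_combination h6⟩
    obtain ⟨κ', _, c', y', hb2, hc2⟩ := h1 n a z hz1
    refine ⟨κ ⊕ κ', inferInstance, fun k => Sum.elim (c k) (c' k),
      Sum.elim y (fun j => x ^ i * y' j), ?_, ?_⟩
    · intro k
      obtain ⟨w, hw⟩ := Ideal.mem_span_singleton'.1 (hb2 k)
      refine Ideal.mem_span_singleton'.2 ⟨w, ?_⟩
      rw [Fintype.sum_sum_type]
      simp only [Sum.elim_inl, Sum.elim_inr]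
      have h7 : ∑ j, iterateFrobenius S p e (c' k j) * (x ^ i * y' j) =
          x ^ i * ∑ j, iterateFrobenius S p e (c' k j) * y' j := by
        rw [Finset.mul_sum]
        exact Finset.sum_congr rfl fun j _ => by ring
      rw [h7, hz k]
      linear_combination x ^ i * hw
    · rintro (j | j)
      · exact hc j
      · exact hc2 j

theorem frob_flat_aux (e : ℕ) (d : ℕ) : ∀ (S : Type u) [CommRing S] [IsRegularLocalRing S]
    [CharP S p], ringKrullDim S = (d : ℕ) → (iterateFrobenius S p e).Flat := by
  induction d with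
  | zero =>
    intro S _ _ _ h
    exact RingHom.Flat.of_isField
      (isField_iff_maximalIdeal_eq.2 (H379R3.dim_zero_maximalIdeal_eq_bot h)) _
  | succ d ih =>
    intro S _ _ _ h
    have hdom := H379R3.isDomain S
    have hsq : ¬ (maximalIdeal S ≤ maximalIdeal S ^ 2) := by
      intro hle
      have h0 : maximalIdeal S = ⊥ := by
        apply Submodule.eq_bot_of_le_smul_of_le_jacobson_bot (maximalIdeal S) _
          (maximalIdeal S).fg_of_isNoetherianRing
        · rw [smul_eq_mul, ← pow_two]; exact hle
        · exact IsLocalRing.maximalIdeal_le_jacobson _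
      have h2 : IsField S := isField_iff_maximalIdeal_eq.2 h0
      have := ringKrullDim_eq_zero_of_isField h2
      rw [h] at this
      have h3 : d + 1 = 0 := by exact_mod_cast this
      omega
    obtain ⟨x, hx, hx2⟩ := Set.not_subset.1 hsq
    obtain ⟨hreg, hdim⟩ := H379R3.regular_quotient x hx hx2 d h
    have hcp : CharP (S ⧸ Ideal.span {x}) p := charP_quot p _
    have hfl := ih (S ⧸ Ideal.span {x}) hdim
    have hx0 : x ≠ 0 := by
      rintro rfl
      exact hx2 (Ideal.zero_mem _)
    have hxnz : x ∈ nonZeroDivisors S := mem_nonZeroDivisors_of_ne_zero hx0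
    have h1 : RelMod (iterateFrobenius S p e) x (Ideal.span {x}) := by
      intro n a b hab
      have h2 : ∑ i, iterateFrobenius (S ⧸ Ideal.span {x}) p e
          (Ideal.Quotient.mk (Ideal.span {x}) (a i)) *
          Ideal.Quotient.mk (Ideal.span {x}) (b i) = 0 := by
        rw [← Ideal.Quotient.eq_zero_iff_mem, map_sum] at hab
        rw [← hab]
        refine Finset.sum_congr rfl fun i _ => ?_
        rw [map_mul, RingHom.map_iterateFrobenius]
      obtain ⟨k, c, y, hb, hc⟩ := rel_of_flat _ hfl _ _ h2
      choose c' hc' using fun i j => Ideal.Quotient.mk_surjective (c i j)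
      choose y' hy' using fun j => Ideal.Quotient.mk_surjective (y j)
      refine ⟨Fin k, inferInstance, c', y', ?_, ?_⟩
      · intro i
        rw [← Ideal.Quotient.eq_zero_iff_mem, map_sub, sub_eq_zero, hb i, map_sum]
        refine Finset.sum_congr rfl fun j _ => ?_
        rw [map_mul, RingHom.map_iterateFrobenius, hc', hy']
      · intro j
        rw [← Ideal.Quotient.eq_zero_iff_mem, map_sum, ← hc j]
        refine Finset.sum_congr rfl fun i _ => ?_
        rw [map_mul, hc']
    have hpe : 1 ≤ p ^ e := Nat.one_le_pow _ _ hp.out.pos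
    apply flat_of_relMod' (iterateFrobenius S p e) x
    · rw [iterateFrobenius_def]
      exact Ideal.pow_mem_of_mem _ hx _ hpe
    · rw [iterateFrobenius_def]
      exact pow_mem hxnz _
    · rw [iterateFrobenius_def]
      exact relMod_pow p e x hxnz h1 _ hpe le_rfl

/-- Frobenius is flat on regular local rings. -/
theorem frob_flat_local (e : ℕ) (S : Type u) [CommRing S] [IsRegularLocalRing S]
    [CharP S p] : (iterateFrobenius S p e).Flat := by
  obtain ⟨d, hd⟩ := H379R3.exists_dim_eq (B := S)
  exact frob_flat_aux p e d S hd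

omit hp in
theorem flat_of_local {A B : Type u} [CommRing A] [CommRing B] (f : A →+* B)
    (h : ∀ (P : Ideal B) [P.IsMaximal],
      ((algebraMap B (Localization.AtPrime P)).comp f).Flat) : f.Flat := by
  let _ : Algebra A B := f.toAlgebra
  change Module.Flat A B
  apply Module.flat_of_isLocalized_maximal B B (fun P ↦ Localization.AtPrime P)
    (fun P ↦ Algebra.linearMap B _)
  intro P _
  have h1 := h P
  have h2 : (algebraMap B (Localization.AtPrime P)).comp f =
    algebraMap A (Localization.AtPrime P) := rfl
  rw [h2, RingHom.flat_algebraMap_iff] at h1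
  exact h1

/-- Frobenius is flat on regular rings. -/
theorem frob_flat (e : ℕ) (R : Type u) [CommRing R] [IsRegularRing R]
    [CharP R p] : (iterateFrobenius R p e).Flat := by
  apply flat_of_local
  intro P _
  have : CharP (Localization.AtPrime P) p := charP_alg p (S := R) _
  rw [RingHom.iterateFrobenius_comm (p := p)]
  exact RingHom.Flat.comp (RingHom.flat_algebraMap_iff.2 inferInstance)
    (frob_flat_local p e (Localization.AtPrime P))

end

end Pool.Agent.V113.FPR
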