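import Pool.Agent.V113.FPR.Chart

/-! Regular rings of prime characteristic whose residue domains are J-0 are F-pure regular. -/

set_option autoImplicit false

open IsLocalRing

namespace Pool.Agent.V113.FPR

universe u

section

variable (p : ℕ) [hp : Fact p.Prime]

theorem bound_chart {R : Type u} [CommRing R] [IsRegularRing R] [CharP R p]
    (P : Ideal R) [hPp : P.IsPrime] (hJ : IsJ0 (R ⧸ P)) (c : R)
    (hc : algebraMap R (Localization.AtPrime P) c ≠ 0) :
    ∃ (g : R) (r : ℕ), g ∉ P ∧ ∀ (m : Ideal R), m.IsPrime → P ≤ m → g ∉ m → ∀ e : ℕ,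
      r < p ^ e → c ∉ m.map (iterateFrobenius R p e) := by
  classical
  obtain ⟨h, x, f1, hh, hxP, hf1, hf1P, hx⟩ := exists_gens P
  obtain ⟨r, f2, Q, a0, hf2, hQ, ha0, hQe⟩ := exists_lead P x hx c hc
  obtain ⟨U, hU, ⟨y0, hy0⟩, hreg⟩ := hJ
  obtain ⟨_, ⟨g4', rfl⟩, hyV, hVU⟩ :=
    PrimeSpectrum.isTopologicalBasis_basic_opens.exists_subset_of_mem_open hy0 hU
  obtain ⟨g4, rfl⟩ := Ideal.Quotient.mk_surjective g4'
  have hg4 : g4 ∉ P := by
    intro h4
    apply (PrimeSpectrum.mem_basicOpen _ _).1 hyV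
    rw [Ideal.Quotient.eq_zero_iff_mem.2 h4]
    exact Ideal.zero_mem _
  refine ⟨f1 * f2 * MvPolynomial.coeff a0 Q * g4, r, ?_, ?_⟩
  · intro h1
    rcases hPp.mem_or_mem h1 with h1 | h1
    · rcases hPp.mem_or_mem h1 with h1 | h1
      · rcases hPp.mem_or_mem h1 with h1 | h1
        · exact hf1 h1
        · exact hf2 h1
      · exact ha0 h1
    · exact hg4 h1
  intro m hm hPm hg e he hcm
  have hg1 : f1 ∉ m := fun h1 => hg (by
    rw [mul_assoc, mul_assoc]; exact Ideal.mul_mem_right _ _ h1)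
  have hg2 : f2 ∉ m := fun h1 => hg (by
    have : f1 * f2 * MvPolynomial.coeff a0 Q * g4 = f2 * (f1 * MvPolynomial.coeff a0 Q * g4) := by
      ring
    rw [this]; exact Ideal.mul_mem_right _ _ h1)
  have hg3 : MvPolynomial.coeff a0 Q ∉ m := fun h1 => hg (by
    have : f1 * f2 * MvPolynomial.coeff a0 Q * g4 = MvPolynomial.coeff a0 Q * (f1 * f2 * g4) := by
      ring
    rw [this]; exact Ideal.mul_mem_right _ _ h1)
  have hg4 : g4 ∉ m := fun h1 => hg (Ideal.mul_mem_left _ _ h1)
  have hker : RingHom.ker (Ideal.Quotient.mk P) ≤ m := by rw [Ideal.mk_ker]; exact hPm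
  have hN : (m.map (Ideal.Quotient.mk P)).IsPrime :=
    Ideal.map_isPrime_of_surjective Ideal.Quotient.mk_surjective hker
  obtain ⟨N, hNdef⟩ : ∃ N, N = m.map (Ideal.Quotient.mk P) := ⟨_, rfl⟩
  rw [← hNdef] at hN
  have hcomap : m = N.comap (Ideal.Quotient.mk P) := by
    rw [hNdef, Ideal.comap_map_of_surjective _ Ideal.Quotient.mk_surjective,
      ← RingHom.ker_eq_comap_bot]
    exact (sup_eq_left.2 hker).symm
  clear hNdef
  subst hcomap
  have hregN : IsRegularLocalRing (Localization.AtPrime N) := by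
    apply hreg ⟨N, hN⟩
    apply hVU
    exact hg4
  obtain ⟨δ, y, hdim, hgen⟩ := chart P h x hxP hh f1 hf1P N hg1 hregN
  have hcp : CharP (Localization.AtPrime (N.comap (Ideal.Quotient.mk P))) p :=
    charP_alg p (S := R) _
  apply eval_not_mem p e h δ r hdim _ y hgen he
    (MvPolynomial.map (algebraMap R (Localization.AtPrime (N.comap (Ideal.Quotient.mk P)))) Q)
    (hQ.map _) a0 ?_
  · have h1 : MvPolynomial.eval (fun i => algebraMap R
        (Localization.AtPrime (N.comap (Ideal.Quotient.mk P))) (x i))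
        (MvPolynomial.map (algebraMap R
          (Localization.AtPrime (N.comap (Ideal.Quotient.mk P)))) Q) =
        algebraMap R (Localization.AtPrime (N.comap (Ideal.Quotient.mk P))) (f2 * c) := by
      rw [hQe, MvPolynomial.eval_map, MvPolynomial.eval₂_comp]
      rfl
    rw [h1, map_mul]
    apply Ideal.mul_mem_left
    have h2 := Ideal.mem_map_of_mem (algebraMap R
      (Localization.AtPrime (N.comap (Ideal.Quotient.mk P)))) hcm
    rw [Ideal.map_map, RingHom.iterateFrobenius_comm (p := p), ← Ideal.map_map,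
      Localization.AtPrime.map_eq_maximalIdeal] at h2
    exact h2
  · rw [MvPolynomial.coeff_map]
    exact IsLocalization.map_units (M := (N.comap (Ideal.Quotient.mk P)).primeCompl) _
      (⟨_, hg3⟩ : (N.comap (Ideal.Quotient.mk P)).primeCompl)

theorem bound {R : Type u} [CommRing R] [IsRegularRing R] [CharP R p]
    (hJ : ∀ (P : Ideal R), P.IsPrime → IsJ0 (R ⧸ P)) (c : R)
    (hc : ∀ 𝔮 ∈ minimalPrimes R, c ∉ 𝔮) (I : Ideal R) :
    ∃ r : ℕ, ∀ (m : Ideal R), m.IsPrime → I ≤ m → ∀ e : ℕ,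
      r < p ^ e → c ∉ m.map (iterateFrobenius R p e) := by
  classical
  refine IsNoetherian.induction (R := R) (M := R) (P := fun I : Ideal R =>
    ∃ r : ℕ, ∀ (m : Ideal R), m.IsPrime → I ≤ m → ∀ e : ℕ,
      r < p ^ e → c ∉ m.map (iterateFrobenius R p e)) ?_ I
  intro (I : Ideal R) ih
  by_cases hI : Ideal.IsPrime I
  · have hc0 : algebraMap R (Localization.AtPrime I) c ≠ 0 := by
      intro h0
      rw [IsLocalization.map_eq_zero_iff I.primeCompl] at h0
      obtain ⟨s, hs⟩ := h0
      obtain ⟨q, hq, hqI⟩ := Ideal.exists_minimalPrimes_le (I := (⊥ : Ideal R)) (J := I) bot_le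
      have hqp : q.IsPrime := hq.1.1
      have h1 : (s : R) * c ∈ q := by rw [hs]; exact q.zero_mem
      rcases hqp.mem_or_mem h1 with h2 | h2
      · exact s.2 (hqI h2)
      · exact hc q hq h2
    obtain ⟨g, r1, hg, h1⟩ := bound_chart p I (hJ I hI) c hc0
    obtain ⟨r2, h2⟩ := ih (I ⊔ Ideal.span {g}) (by
      refine lt_of_le_of_ne le_sup_left fun h => hg ?_
      rw [h]; exact Ideal.mem_sup_right (Ideal.mem_span_singleton_self g))
    refine ⟨max r1 r2, fun m hm hIm e he => ?_⟩
    by_cases hgm : g ∈ m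
    · exact h2 m hm (sup_le hIm (by rwa [Ideal.span_singleton_le_iff_mem])) e
        (lt_of_le_of_lt (le_max_right _ _) he)
    · exact h1 m hm hIm hgm e (lt_of_le_of_lt (le_max_left _ _) he)
  · by_cases htop : I = ⊤
    · refine ⟨0, fun m hm hIm => ?_⟩
      exact absurd (top_le_iff.1 (htop ▸ hIm)) hm.ne_top
    · rw [Ideal.not_isPrime_iff] at hI
      rcases hI with h | ⟨a, ha, b, hb, hab⟩
      · exact absurd h htop
      obtain ⟨r1, h1⟩ := ih (I ⊔ Ideal.span {a}) (by
        refine lt_of_le_of_ne le_sup_left fun h => ha ?_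
        rw [h]; exact Ideal.mem_sup_right (Ideal.mem_span_singleton_self a))
      obtain ⟨r2, h2⟩ := ih (I ⊔ Ideal.span {b}) (by
        refine lt_of_le_of_ne le_sup_left fun h => hb ?_
        rw [h]; exact Ideal.mem_sup_right (Ideal.mem_span_singleton_self b))
      refine ⟨max r1 r2, fun m hm hIm e he => ?_⟩
      rcases hm.mem_or_mem (hIm hab) with h3 | h3
      · exact h1 m hm (sup_le hIm (by rwa [Ideal.span_singleton_le_iff_mem])) e
          (lt_of_le_of_lt (le_max_left _ _) he)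
      · exact h2 m hm (sup_le hIm (by rwa [Ideal.span_singleton_le_iff_mem])) e
          (lt_of_le_of_lt (le_max_right _ _) he)

theorem flat_frobMod (e : ℕ) (R : Type u) [CommRing R] [IsRegularRing R] [CharP R p] :
    Module.Flat R (FrobMod R p e) :=
  frob_flat p e R

theorem pure_of_not_mem (e : ℕ) (R : Type u) [CommRing R] [IsRegularRing R] [CharP R p] (c : R)
    (hc : ∀ m : Ideal R, m.IsMaximal → c ∉ m.map (iterateFrobenius R p e)) :
    IsPureMap (lam R p e c) := by
  classical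
  intro P _ _
  have hfl := flat_frobMod p e R
  rw [injective_iff_map_eq_zero]
  intro w hw
  obtain ⟨z, rfl⟩ := (TensorProduct.lid R P).symm.surjective w
  rw [TensorProduct.lid_symm_apply] at hw ⊢
  rw [LinearMap.rTensor_tmul] at hw
  by_contra hne
  have hz : z ≠ 0 := by
    rintro rfl
    exact hne (TensorProduct.tmul_zero _ _)
  have h1 := congrArg (TensorProduct.comm R (FrobMod R p e) P) hw
  rw [TensorProduct.comm_tmul, map_zero] at h1
  have h2 : ∑ i : Fin 1, (fun _ => z : Fin 1 → P) i ⊗ₜ[R]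
      (fun _ => lam R p e c 1 : Fin 1 → FrobMod R p e) i = 0 := by
    simpa using h1
  have h3 := TensorProduct.vanishesTrivially_of_sum_tmul_eq_zero_of_rTensor_injective R
    (Module.Flat.rTensor_preserves_injective_linearMap _ (Submodule.subtype_injective _)) h2
  obtain ⟨k, a, y, ha, hz0⟩ := h3
  let I : Ideal R := LinearMap.ker (LinearMap.toSpanSingleton R P z)
  have hI : I ≠ ⊤ := by
    intro h4
    have h5 : (1 : R) ∈ I := by rw [h4]; trivial
    have h6 : (1 : R) • z = 0 := h5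
    rw [one_smul] at h6
    exact hz h6
  obtain ⟨m, hm, hIm⟩ := Ideal.exists_le_maximal I hI
  apply hc m hm
  have h4 := ha 0
  have h5 : (lam R p e c 1 : FrobMod R p e) = (c * 1 ^ p ^ e : R) := rfl
  let y' : Fin k → R := y
  have h6 : c = ∑ j, iterateFrobenius R p e (a 0 j) * y' j := by
    have h7 : (c * 1 ^ p ^ e : R) = ∑ j, iterateFrobenius R p e (a 0 j) * y' j := h4
    rw [← h7, one_pow, mul_one]
  rw [h6]
  refine Ideal.sum_mem _ fun j _ => Ideal.mul_mem_right _ _ (Ideal.mem_map_of_mem _ (hIm ?_))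
  have h7 := hz0 j
  simpa [I] using h7

/-- The main theorem. -/
theorem fpr_of_J0 (R : Type u) [CommRing R] [IsRegularRing R] [CharP R p]
    (hJ : ∀ (P : Ideal R), P.IsPrime → IsJ0 (R ⧸ P)) : FPureRegular R p := by
  intro c hc
  obtain ⟨r, hr⟩ := bound p hJ c hc ⊥
  refine ⟨r + 1, by omega, pure_of_not_mem p (r + 1) R c fun m hm => ?_⟩
  apply hr m hm.isPrime bot_le
  have h1 : r + 1 < p ^ (r + 1) := Nat.lt_pow_self hp.out.one_lt
  omega

end

theorem J0_of_J2 {R : Type u} [CommRing R] (h : IsJ2 R) (P : Ideal R) (hP : P.IsPrime) :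
    IsJ0 (R ⧸ P) := by
  refine ⟨_, h (R ⧸ P), ⟨⟨⊥, Ideal.isPrime_bot⟩, ?_⟩, fun x hx => hx⟩
  change IsRegularLocalRing (Localization.AtPrime (⊥ : Ideal (R ⧸ P)))
  let : Field (Localization.AtPrime (⊥ : Ideal (R ⧸ P))) := IsField.toField <| by
    simp [isField_iff_maximalIdeal_eq, ← Localization.AtPrime.map_eq_maximalIdeal]
  infer_instance

end Pool.Agent.V113.FPR
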