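import Pool.Agent.V113.FPR.Frob

/-! The monomial statement for regular systems of parameters in characteristic `p`. -/

set_option autoImplicit false

open IsLocalRing

namespace Pool.Agent.V113.FPR

universe u

/-- Quotients of regular local rings by part of a regular system of parameters. -/
theorem quot_part {S : Type u} [CommRing S] [IsRegularLocalRing S] (a b : ℕ)
    (hd : ringKrullDim S = ((a + b : ℕ) : ℕ)) (z : Fin a → S) (w : Fin b → S)
    (hzw : Ideal.span (Set.range z) ⊔ Ideal.span (Set.range w) = maximalIdeal S) :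
    IsRegularLocalRing (S ⧸ Ideal.span (Set.range z)) ∧
      ringKrullDim (S ⧸ Ideal.span (Set.range z)) = (b : ℕ) ∧
      ∃ _ : IsLocalRing (S ⧸ Ideal.span (Set.range z)),
      Ideal.span (Set.range fun i => Ideal.Quotient.mk (Ideal.span (Set.range z)) (w i)) =
        maximalIdeal (S ⧸ Ideal.span (Set.range z)) := by
  classical
  set J := Ideal.span (Set.range z) with hJ
  have hJm : J ≤ maximalIdeal S := by rw [← hzw]; exact le_sup_left
  have hne : J ≠ ⊤ := fun h => (maximalIdeal.isMaximal S).ne_top (top_le_iff.1 (h ▸ hJm))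
  have : Nontrivial (S ⧸ J) := Ideal.Quotient.nontrivial_iff.2 hne
  have hloc : IsLocalRing (S ⧸ J) :=
    IsLocalRing.of_surjective' (Ideal.Quotient.mk _) Ideal.Quotient.mk_surjective
  have hmax : Ideal.span (Set.range fun i => Ideal.Quotient.mk J (w i)) = maximalIdeal (S ⧸ J) := by
    rw [← H379R3.map_mk_maximalIdeal, ← hzw, Ideal.map_sup, Ideal.map_quotient_self, bot_sup_eq,
      Ideal.map_span, ← Set.range_comp]
    rfl
  have hrank : (maximalIdeal (S ⧸ J)).spanFinrank ≤ b := by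
    rw [← hmax]
    refine (Submodule.spanFinrank_span_le_ncard_of_finite (Set.finite_range _)).trans ?_
    rw [← Set.image_univ]
    refine (Set.ncard_image_le Set.finite_univ).trans ?_
    rw [Set.ncard_univ, Nat.card_fin]
  have hdim : ((b : ℕ) : WithBot ℕ∞) ≤ ringKrullDim (S ⧸ J) := by
    have h1 := ringKrullDim_le_ringKrullDim_quotient_add_card (R := S) (Finset.univ.image z) (by
      intro x hx
      simp only [Finset.coe_image, Finset.coe_univ, Set.image_univ, Set.mem_range] at hx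
      obtain ⟨i, rfl⟩ := hx
      rw [SetLike.mem_coe, IsLocalRing.ringJacobson_eq_maximalIdeal]
      exact hJm (Ideal.subset_span ⟨i, rfl⟩))
    rw [hd, Finset.coe_image, Finset.coe_univ, Set.image_univ, ← hJ] at h1
    have h3 : ((Finset.univ.image z).card : WithBot ℕ∞) ≤ ((a : ℕ) : WithBot ℕ∞) := by
      have : (Finset.univ.image z).card ≤ a := by
        refine Finset.card_image_le.trans ?_
        simp
      exact_mod_cast this
    have h4 : (((a + b : ℕ) : ℕ) : WithBot ℕ∞) ≤ ringKrullDim (S ⧸ J) + ((a : ℕ) : WithBot ℕ∞) :=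
      h1.trans (by gcongr)
    obtain ⟨D, hD⟩ : ∃ D : ℕ, ringKrullDim (S ⧸ J) = D := by
      have h5 : ringKrullDim (S ⧸ J) ≠ ⊤ := ringKrullDim_ne_top
      have h6 : ringKrullDim (S ⧸ J) ≠ ⊥ := ringKrullDim_ne_bot
      obtain ⟨x, hx⟩ := WithBot.ne_bot_iff_exists.1 h6
      rw [← hx] at h5 ⊢
      have h7 : x ≠ ⊤ := by rintro rfl; exact h5 rfl
      obtain ⟨m, hm⟩ := ENat.ne_top_iff_exists.1 h7
      exact ⟨m, by rw [← hm]; rfl⟩
    rw [hD] at h4 ⊢
    have h8 : a + b ≤ D + a := by exact_mod_cast h4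
    have h9 : b ≤ D := by omega
    exact_mod_cast h9
  have : IsNoetherianRing (S ⧸ J) := inferInstance
  have hreg : IsRegularLocalRing (S ⧸ J) := by
    apply IsRegularLocalRing.of_spanFinrank_maximalIdeal_le
    exact le_trans (by exact_mod_cast hrank) hdim
  refine ⟨hreg, le_antisymm ?_ hdim, hloc, hmax⟩
  rw [← (isRegularLocalRing_iff _).1 hreg]
  exact_mod_cast hrank

section

variable (p : ℕ) [hp : Fact p.Prime]

theorem nzd_frob {S : Type u} [CommRing S] [IsRegularLocalRing S] [CharP S p] (e n : ℕ)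
    (hd : ringKrullDim S = ((n + 1 : ℕ) : ℕ)) (z : Fin (n + 1) → S)
    (hz : Ideal.span (Set.range z) = maximalIdeal S) (u : S)
    (hu : z 0 * u ∈ Ideal.span (Set.range fun i : Fin n => z i.succ ^ p ^ e)) :
    u ∈ Ideal.span (Set.range fun i : Fin n => z i.succ ^ p ^ e) := by
  set J := Ideal.span (Set.range fun i : Fin n => z i.succ) with hJ
  have hmap : Ideal.span (Set.range fun i : Fin n => z i.succ ^ p ^ e) =
      J.map (iterateFrobenius S p e) := by
    rw [hJ, Ideal.map_span, ← Set.range_comp]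
    rfl
  have hsplit : J ⊔ Ideal.span (Set.range fun _ : Fin 1 => z 0) = maximalIdeal S := by
    rw [← hz, hJ, ← Ideal.span_union]
    congr 1
    ext x
    constructor
    · rintro (⟨i, rfl⟩ | ⟨i, rfl⟩)
      · exact ⟨i.succ, rfl⟩
      · exact ⟨0, rfl⟩
    · rintro ⟨i, rfl⟩
      refine Fin.cases ?_ (fun i => ?_) i
      · exact Or.inr ⟨0, rfl⟩
      · exact Or.inl ⟨i, rfl⟩
  obtain ⟨hreg, hdim, hloc, hmax⟩ := quot_part n 1 hd (fun i : Fin n => z i.succ) _ hsplit
  have hdom := H379R3.isDomain (S ⧸ J)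
  have hprime : J.IsPrime := (Ideal.Quotient.isDomain_iff_prime _).1 hdom
  have hz0 : z 0 ∉ J := by
    intro h0
    have h1 : maximalIdeal (S ⧸ J) = ⊥ := by
      rw [← hmax, eq_bot_iff, Ideal.span_le]
      rintro _ ⟨i, rfl⟩
      exact Ideal.Quotient.eq_zero_iff_mem.2 h0
    have h2 : IsField (S ⧸ J) := isField_iff_maximalIdeal_eq.2 h1
    have h3 := ringKrullDim_eq_zero_of_isField h2
    rw [hdim] at h3
    have h4 : (1 : ℕ) = 0 := by exact_mod_cast h3
    omega
  have hpe : 1 ≤ p ^ e := Nat.one_le_pow _ _ hp.out.pos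
  have hu' : z 0 ^ p ^ e * u ∈ Ideal.span (Set.range fun i : Fin n => z i.succ ^ p ^ e) := by
    have : z 0 ^ p ^ e * u = z 0 ^ (p ^ e - 1) * (z 0 * u) := by
      rw [← mul_assoc, ← pow_succ]
      congr 2; omega
    rw [this]
    exact Ideal.mul_mem_left _ _ hu
  obtain ⟨b, hb⟩ := (Ideal.mem_span_range_iff_exists_fun).1 hu'
  have hfl := frob_flat_local p e S
  obtain ⟨k, c, y, h1, h2⟩ := rel_of_flat _ hfl z (Fin.cons u (fun i => - b i)) (by
    rw [Fin.sum_univ_succ]
    simp only [Fin.cons_zero, Fin.cons_succ, iterateFrobenius_def]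
    rw [← hb, ← Finset.sum_add_distrib]
    exact Finset.sum_eq_zero fun i _ => by ring)
  have h3 := h1 0
  rw [Fin.cons_zero] at h3
  rw [h3, hmap]
  refine Ideal.sum_mem _ fun j _ => Ideal.mul_mem_right _ _ (Ideal.mem_map_of_mem _ ?_)
  have h4 : z 0 * c 0 j ∈ J := by
    have h5 := h2 j
    rw [Fin.sum_univ_succ] at h5
    have h6 : z 0 * c 0 j = -∑ i : Fin n, z i.succ * c i.succ j := by linear_combination h5
    rw [h6]
    exact J.neg_mem (Ideal.sum_mem _ fun i _ => Ideal.mul_mem_right _ _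
      (Ideal.subset_span ⟨i, rfl⟩))
  exact (hprime.mem_or_mem h4).resolve_left hz0

theorem nzd_frob_pow {S : Type u} [CommRing S] [IsRegularLocalRing S] [CharP S p] (e n : ℕ)
    (hd : ringKrullDim S = ((n + 1 : ℕ) : ℕ)) (z : Fin (n + 1) → S)
    (hz : Ideal.span (Set.range z) = maximalIdeal S) (k : ℕ) : ∀ (u : S)
    (_ : z 0 ^ k * u ∈ Ideal.span (Set.range fun i : Fin n => z i.succ ^ p ^ e)),
    u ∈ Ideal.span (Set.range fun i : Fin n => z i.succ ^ p ^ e) := by
  induction k with
  | zero => intro u hu; simpa using hu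
  | succ k ih =>
    intro u hu
    apply nzd_frob p e n hd z hz u
    apply ih
    rw [← mul_assoc, ← pow_succ]
    exact hu

theorem mono (e n : ℕ) : ∀ (S : Type u) [CommRing S] [IsRegularLocalRing S] [CharP S p]
    (_ : ringKrullDim S = (n : ℕ)) (z : Fin n → S)
    (_ : Ideal.span (Set.range z) = maximalIdeal S),
    (∏ i, z i) ^ (p ^ e - 1) ∉ Ideal.span (Set.range fun i => z i ^ p ^ e) := by
  induction n with
  | zero =>
    intro S _ _ _ hd z hz h
    rw [Set.range_eq_empty, Ideal.span_empty, Finset.univ_eq_empty, Finset.prod_empty,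
      one_pow] at h
    exact one_ne_zero (Ideal.mem_bot.1 h)
  | succ n ih =>
    intro S _ _ _ hd z hz h
    have hsplit : Ideal.span (Set.range fun _ : Fin 1 => z 0) ⊔
        Ideal.span (Set.range fun i : Fin n => z i.succ) = maximalIdeal S := by
      rw [← hz, ← Ideal.span_union]
      congr 1
      ext x
      constructor
      · rintro (⟨i, rfl⟩ | ⟨i, rfl⟩)
        · exact ⟨0, rfl⟩
        · exact ⟨i.succ, rfl⟩
      · rintro ⟨i, rfl⟩
        refine Fin.cases ?_ (fun i => ?_) i
        · exact Or.inl ⟨0, rfl⟩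
        · exact Or.inr ⟨i, rfl⟩
    have hd' : ringKrullDim S = ((1 + n : ℕ) : ℕ) := by rw [hd, add_comm]
    obtain ⟨hreg, hdim, hloc, hmax⟩ := quot_part 1 n hd' _ _ hsplit
    have hcp : CharP (S ⧸ Ideal.span (Set.range fun _ : Fin 1 => z 0)) p := charP_quot p _
    apply ih _ hdim _ hmax
    obtain ⟨b, hb⟩ := (Ideal.mem_span_range_iff_exists_fun).1 h
    rw [Fin.sum_univ_succ, Fin.prod_univ_succ, mul_pow] at hb
    have hpe : 1 ≤ p ^ e := Nat.one_le_pow _ _ hp.out.pos
    have h1 : z 0 ^ (p ^ e - 1) * ((∏ i : Fin n, z i.succ) ^ (p ^ e - 1) - b 0 * z 0) ∈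
        Ideal.span (Set.range fun i : Fin n => z i.succ ^ p ^ e) := by
      have h2 : z 0 ^ (p ^ e - 1) * ((∏ i : Fin n, z i.succ) ^ (p ^ e - 1) - b 0 * z 0) =
          ∑ i : Fin n, b i.succ * z i.succ ^ p ^ e := by
        have h3 : z 0 ^ p ^ e = z 0 ^ (p ^ e - 1) * z 0 := by
          rw [← pow_succ]; congr 1; omega
        rw [h3] at hb
        linear_combination -hb
      rw [h2]
      exact Ideal.sum_mem _ fun i _ => Ideal.mul_mem_left _ _ (Ideal.subset_span ⟨i, rfl⟩)
    have h4 := nzd_frob_pow p e n hd z hz _ _ h1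
    have h5 := Ideal.mem_map_of_mem
      (Ideal.Quotient.mk (Ideal.span (Set.range fun _ : Fin 1 => z 0))) h4
    rw [Ideal.map_span, ← Set.range_comp, map_sub, map_mul, map_pow, map_prod] at h5
    have h6 : Ideal.Quotient.mk (Ideal.span (Set.range fun _ : Fin 1 => z 0)) (z 0) = 0 :=
      Ideal.Quotient.eq_zero_iff_mem.2 (Ideal.subset_span ⟨0, rfl⟩)
    rw [h6, mul_zero, sub_zero] at h5
    have h7 : (⇑(Ideal.Quotient.mk (Ideal.span (Set.range fun _ : Fin 1 => z 0))) ∘
        fun i : Fin n => z i.succ ^ p ^ e) = fun i : Fin n =>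
        (Ideal.Quotient.mk (Ideal.span (Set.range fun _ : Fin 1 => z 0)) (z i.succ)) ^ p ^ e := by
      funext i
      simp
    rw [h7] at h5
    exact h5

end

end Pool.Agent.V113.FPR
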