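import Pool.Agent.V113.FPR.Mono

/-! Order bounds: elements outside Frobenius powers of maximal ideals. -/

set_option autoImplicit false

open IsLocalRing

namespace Pool.Agent.V113.FPR

universe u

section

variable (p : ℕ) [hp : Fact p.Prime]

theorem eval_not_mem {T : Type u} [CommRing T] [IsRegularLocalRing T] [CharP T p] (e h δ r : ℕ)
    (hd : ringKrullDim T = ((h + δ : ℕ) : ℕ)) (x : Fin h → T) (y : Fin δ → T)
    (hxy : Ideal.span (Set.range x) ⊔ Ideal.span (Set.range y) = maximalIdeal T)
    (hr : r < p ^ e) (P : MvPolynomial (Fin h) T) (hP : P.IsHomogeneous r) (a0 : Fin h →₀ ℕ)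
    (hu : IsUnit (MvPolynomial.coeff a0 P)) :
    MvPolynomial.eval x P ∉ (maximalIdeal T).map (iterateFrobenius T p e) := by
  classical
  intro hmem
  set z : Fin (h + δ) → T := Fin.append x y with hzdef
  have hz : Ideal.span (Set.range z) = maximalIdeal T := by
    rw [← hxy, ← Ideal.span_union]
    congr 1
    ext t
    constructor
    · rintro ⟨i, rfl⟩
      refine Fin.addCases (fun i => ?_) (fun i => ?_) i
      · exact Or.inl ⟨i, by simp [hzdef]⟩
      · exact Or.inr ⟨i, by simp [hzdef]⟩
    · rintro (⟨i, rfl⟩ | ⟨i, rfl⟩)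
      · exact ⟨Fin.castAdd δ i, by simp [hzdef]⟩
      · exact ⟨Fin.natAdd h i, by simp [hzdef]⟩
  have hmap : (maximalIdeal T).map (iterateFrobenius T p e) =
      Ideal.span (Set.range fun i => z i ^ p ^ e) := by
    rw [← hz, Ideal.map_span, ← Set.range_comp]
    rfl
  rw [hmap] at hmem
  set J := Ideal.span (Set.range fun i => z i ^ p ^ e) with hJ
  have hne0 : MvPolynomial.coeff a0 P ≠ 0 := hu.ne_zero
  have hdeg0 : ∑ i, a0 i = r := by
    have := hP hne0
    rw [Finsupp.weight_apply] at this
    simpa [Finsupp.sum_fintype] using this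
  have ha0 : ∀ i, a0 i ≤ r := fun i => by
    rw [← hdeg0]; exact Finset.single_le_sum (fun _ _ => Nat.zero_le _) (Finset.mem_univ i)
  set M : T := (∏ i, x i ^ (p ^ e - 1 - a0 i)) * ∏ j, y j ^ (p ^ e - 1) with hM
  have hterm : ∀ a : Fin h →₀ ℕ, a ∈ P.support → a ≠ a0 →
      (∏ i, x i ^ a i) * M ∈ J := by
    intro a ha hne
    have hdeg : ∑ i, a i = r := by
      have := hP (MvPolynomial.mem_support_iff.1 ha)
      rw [Finsupp.weight_apply] at this
      simpa [Finsupp.sum_fintype] using this
    have hex : ∃ i, a0 i < a i := by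
      by_contra hcon
      push Not at hcon
      apply hne
      have h1 : ∑ i, a i = ∑ i, a0 i := by rw [hdeg, hdeg0]
      have h2 := (Finset.sum_eq_sum_iff_of_le fun i _ => hcon i).1 h1
      ext i
      exact h2 i (Finset.mem_univ i)
    obtain ⟨i, hi⟩ := hex
    have h1 : x i ^ p ^ e ∣ (∏ i, x i ^ a i) * M := by
      rw [hM, ← mul_assoc, ← Finset.prod_mul_distrib]
      apply Dvd.dvd.mul_right
      have h2 : x i ^ p ^ e ∣ x i ^ a i * x i ^ (p ^ e - 1 - a0 i) := by
        rw [← pow_add]
        apply pow_dvd_pow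
        have := ha0 i
        omega
      exact h2.trans (Finset.dvd_prod_of_mem (fun i => x i ^ a i * x i ^ (p ^ e - 1 - a0 i))
        (Finset.mem_univ i))
    apply Ideal.mem_of_dvd _ h1
    apply Ideal.subset_span
    exact ⟨Fin.castAdd δ i, by simp [hzdef]⟩
  have hprod : (∏ i, x i ^ a0 i) * M = (∏ i, z i) ^ (p ^ e - 1) := by
    rw [hM, ← mul_assoc, ← Finset.prod_mul_distrib, hzdef, Fin.prod_univ_add, mul_pow]
    simp only [Fin.append_left, Fin.append_right]
    rw [← Finset.prod_pow, ← Finset.prod_pow]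
    congr 1
    refine Finset.prod_congr rfl fun i _ => ?_
    rw [← pow_add]
    congr 1
    have := ha0 i
    omega
  have hsum : MvPolynomial.eval x P * M = ∑ a ∈ P.support,
      MvPolynomial.coeff a P * ((∏ i, x i ^ a i) * M) := by
    rw [MvPolynomial.eval_eq', Finset.sum_mul]
    exact Finset.sum_congr rfl fun a _ => by ring
  have ha0s : a0 ∈ P.support := MvPolynomial.mem_support_iff.2 hne0
  rw [← Finset.add_sum_erase _ _ ha0s] at hsum
  have h1 : MvPolynomial.coeff a0 P * ((∏ i, x i ^ a0 i) * M) ∈ J := by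
    have h2 : ∑ a ∈ P.support.erase a0, MvPolynomial.coeff a P * ((∏ i, x i ^ a i) * M) ∈ J :=
      Ideal.sum_mem _ fun a ha => Ideal.mul_mem_left _ _
        (hterm a (Finset.mem_of_mem_erase ha) (Finset.ne_of_mem_erase ha))
    rw [← Ideal.add_mem_iff_left _ h2, ← hsum]
    exact Ideal.mul_mem_right _ _ hmem
  rw [hprod, Ideal.unit_mul_mem_iff_mem _ hu] at h1
  exact mono p e (h + δ) T hd z hz h1

end

theorem exists_homog {R : Type u} [CommRing R] {h : ℕ} (x : Fin h → R) (r : ℕ) : ∀ y : R,
    y ∈ Ideal.span (Set.range x) ^ r →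
    ∃ P : MvPolynomial (Fin h) R, P.IsHomogeneous r ∧ MvPolynomial.eval x P = y := by
  induction r with
  | zero =>
    intro y _
    exact ⟨MvPolynomial.C y, MvPolynomial.isHomogeneous_C _ _, by simp⟩
  | succ r ih =>
    intro y hy
    rw [pow_succ] at hy
    refine Submodule.mul_induction_on hy ?_ ?_
    · intro a ha b hb
      obtain ⟨P, hP, hPa⟩ := ih a ha
      obtain ⟨c, hc⟩ := (Ideal.mem_span_range_iff_exists_fun).1 hb
      refine ⟨P * ∑ i, MvPolynomial.C (c i) * MvPolynomial.X i, ?_, ?_⟩
      · apply hP.mul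
        apply MvPolynomial.IsHomogeneous.sum
        intro i _
        have := (MvPolynomial.isHomogeneous_C (Fin h) (c i)).mul
          (MvPolynomial.isHomogeneous_X R i)
        simpa using this
      · rw [map_mul, hPa, map_sum, ← hc]
        simp
    · rintro a b ⟨P, hP, rfl⟩ ⟨Q, hQ, rfl⟩
      exact ⟨P + Q, hP.add hQ, by simp⟩

theorem exists_param (B : Type u) [CommRing B] [IsRegularLocalRing B] :
    ∃ (d : ℕ) (z : Fin d → B), ringKrullDim B = d ∧
      Ideal.span (Set.range z) = maximalIdeal B := by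
  classical
  let b := Module.finBasis (ResidueField B) (CotangentSpace B)
  choose z hz using fun i => Ideal.toCotangent_surjective (maximalIdeal B) (b i)
  exact ⟨_, fun i => (z i : B), H379R3.finrank_cotangent.symm, H379R3.span_of_basis b z hz⟩

/-- Clearing denominators uniformly. -/
theorem exists_common {R : Type u} [CommRing R] [IsNoetherianRing R] (P : Ideal R) [P.IsPrime]
    (I K : Ideal R) (h : ∀ y ∈ I, ∃ m, m ∉ P ∧ m * y ∈ K) :
    ∃ f, f ∉ P ∧ ∀ y ∈ I, f * y ∈ K := by
  classical
  obtain ⟨s, hs⟩ := I.fg_of_isNoetherianRing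
  have h' : ∀ g : s, ∃ m, m ∉ P ∧ m * (g : R) ∈ K := fun g => h g (by
    rw [← hs]; exact Submodule.subset_span g.2)
  choose m hm hmK using h'
  refine ⟨∏ g : s, m g, ?_, ?_⟩
  · intro hmem
    obtain ⟨g, _, hg⟩ := (Ideal.IsPrime.prod_mem_iff (p := P)).1 hmem
    exact hm g hg
  · intro y hy
    have : I ≤ Submodule.comap (LinearMap.lsmul R R (∏ g : s, m g)) K := by
      rw [← hs, Submodule.span_le]
      intro g hg
      change (∏ g : s, m g) * g ∈ K
      rw [← Finset.mul_prod_erase _ _ (Finset.mem_univ (⟨g, hg⟩ : s))]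
      have := hmK ⟨g, hg⟩
      rw [mul_comm (m _), mul_assoc]
      exact K.mul_mem_left _ this
    exact this hy

/-- `x` generates `𝔭` locally at `𝔭`, and the number of elements is the height. -/
theorem exists_gens {R : Type u} [CommRing R] [IsRegularRing R] (P : Ideal R) [P.IsPrime] :
    ∃ (h : ℕ) (x : Fin h → R) (f : R), P.height = h ∧ (∀ i, x i ∈ P) ∧ f ∉ P ∧
      (∀ y ∈ P, f * y ∈ Ideal.span (Set.range x)) ∧
      Ideal.span (Set.range fun i => algebraMap R (Localization.AtPrime P) (x i)) =
        maximalIdeal (Localization.AtPrime P) := by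
  classical
  obtain ⟨h, z, hd, hz⟩ := exists_param (Localization.AtPrime P)
  rw [IsLocalization.AtPrime.ringKrullDim_eq_height P] at hd
  have hd' : P.height = h := by exact_mod_cast hd
  choose a s has using fun i => IsLocalization.exists_mk'_eq P.primeCompl (z i)
  have hza : ∀ i, algebraMap R (Localization.AtPrime P) (a i) =
      algebraMap R (Localization.AtPrime P) (s i) * z i := by
    intro i
    rw [← has i, mul_comm, IsLocalization.mk'_spec]
  have hunit : ∀ i, IsUnit (algebraMap R (Localization.AtPrime P) (s i)) := fun i =>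
    IsLocalization.map_units _ (s i)
  have hspan : Ideal.span (Set.range fun i => algebraMap R (Localization.AtPrime P) (a i)) =
      maximalIdeal (Localization.AtPrime P) := by
    rw [← hz]
    apply le_antisymm
    · rw [Ideal.span_le]
      rintro _ ⟨i, rfl⟩
      change algebraMap R (Localization.AtPrime P) (a i) ∈ _
      rw [hza i]
      exact Ideal.mul_mem_left _ _ (Ideal.subset_span ⟨i, rfl⟩)
    · rw [Ideal.span_le]
      rintro _ ⟨i, rfl⟩
      rw [SetLike.mem_coe, ← Ideal.unit_mul_mem_iff_mem _ (hunit i), ← hza i]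
      exact Ideal.subset_span ⟨i, rfl⟩
  have hmap : Ideal.map (algebraMap R (Localization.AtPrime P)) (Ideal.span (Set.range a)) =
      maximalIdeal (Localization.AtPrime P) := by
    rw [Ideal.map_span, ← Set.range_comp]
    exact hspan
  obtain ⟨f, hf, hfP⟩ := exists_common P P (Ideal.span (Set.range a)) (by
    intro y hy
    have h1 : algebraMap R (Localization.AtPrime P) y ∈
        Ideal.map (algebraMap R (Localization.AtPrime P)) (Ideal.span (Set.range a)) := by
      rw [hmap, ← Localization.AtPrime.map_eq_maximalIdeal]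
      exact Ideal.mem_map_of_mem _ hy
    obtain ⟨m, hm, h2⟩ := (IsLocalization.algebraMap_mem_map_algebraMap_iff P.primeCompl _ _ _).1 h1
    exact ⟨m, hm, h2⟩)
  refine ⟨h, a, f, hd', fun i => ?_, hf, hfP, hspan⟩
  by_contra hcon
  have h3 : IsUnit (algebraMap R (Localization.AtPrime P) (a i)) :=
    IsLocalization.map_units _ (⟨a i, hcon⟩ : P.primeCompl)
  have h4 : algebraMap R (Localization.AtPrime P) (a i) ∈
      maximalIdeal (Localization.AtPrime P) := by
    rw [← hspan]; exact Ideal.subset_span ⟨i, rfl⟩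
  exact (IsLocalRing.mem_maximalIdeal _).1 h4 h3

/-- The leading form of an element along a prime. -/
theorem exists_lead {R : Type u} [CommRing R] [IsRegularRing R] (P : Ideal R) [P.IsPrime]
    {h : ℕ} (x : Fin h → R)
    (hx : Ideal.span (Set.range fun i => algebraMap R (Localization.AtPrime P) (x i)) =
        maximalIdeal (Localization.AtPrime P)) (c : R)
    (hc : algebraMap R (Localization.AtPrime P) c ≠ 0) :
    ∃ (r : ℕ) (f : R) (Q : MvPolynomial (Fin h) R) (a0 : Fin h →₀ ℕ), f ∉ P ∧
      Q.IsHomogeneous r ∧ MvPolynomial.coeff a0 Q ∉ P ∧ f * c = MvPolynomial.eval x Q := by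
  classical
  have hkrull := Ideal.iInf_pow_eq_bot_of_isLocalRing (maximalIdeal (Localization.AtPrime P))
    (maximalIdeal.isMaximal _).ne_top
  have hex : ∃ n, algebraMap R (Localization.AtPrime P) c ∉
      maximalIdeal (Localization.AtPrime P) ^ n := by
    by_contra hcon
    push Not at hcon
    apply hc
    rw [← Ideal.mem_bot, ← hkrull, Ideal.mem_iInf]
    exact hcon
  obtain ⟨r, hr, hmin⟩ : ∃ r, algebraMap R (Localization.AtPrime P) c ∉
      maximalIdeal (Localization.AtPrime P) ^ (r + 1) ∧
      algebraMap R (Localization.AtPrime P) c ∈ maximalIdeal (Localization.AtPrime P) ^ r := by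
    have h0 : Nat.find hex ≠ 0 := by
      intro h0
      have := Nat.find_spec hex
      rw [h0, pow_zero] at this
      exact this (by simp)
    obtain ⟨r, hr⟩ := Nat.exists_eq_succ_of_ne_zero h0
    refine ⟨r, ?_, ?_⟩
    · have := Nat.find_spec hex
      rw [hr] at this
      exact this
    · by_contra h1
      have := Nat.find_min' hex h1
      omega
  have hmap : Ideal.map (algebraMap R (Localization.AtPrime P)) (Ideal.span (Set.range x) ^ r) =
      maximalIdeal (Localization.AtPrime P) ^ r := by
    rw [Ideal.map_pow, Ideal.map_span, ← Set.range_comp]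
    congr 1
  rw [← hmap] at hmin
  obtain ⟨m, hm, h2⟩ := (IsLocalization.algebraMap_mem_map_algebraMap_iff P.primeCompl _ _ _).1 hmin
  obtain ⟨Q, hQ, hQe⟩ := exists_homog x r _ h2
  by_cases hall : ∀ a, MvPolynomial.coeff a Q ∈ P
  · exfalso
    apply hr
    have hu : IsUnit (algebraMap R (Localization.AtPrime P) m) :=
      IsLocalization.map_units _ (⟨m, hm⟩ : P.primeCompl)
    rw [← Ideal.unit_mul_mem_iff_mem _ hu, ← map_mul, ← hQe, MvPolynomial.eval_eq', map_sum]
    refine Ideal.sum_mem _ fun a ha => ?_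
    rw [map_mul, pow_succ']
    apply Ideal.mul_mem_mul
    · rw [← Localization.AtPrime.map_eq_maximalIdeal]
      exact Ideal.mem_map_of_mem _ (hall a)
    · rw [map_prod]
      have hdeg : ∑ i, a i = r := by
        have := hQ (MvPolynomial.mem_support_iff.1 ha)
        rw [Finsupp.weight_apply] at this
        simpa [Finsupp.sum_fintype] using this
      rw [← hdeg, ← Finset.prod_pow_eq_pow_sum]
      apply Ideal.prod_mem_prod
      intro i _
      rw [map_pow]
      apply Ideal.pow_mem_pow
      rw [← hx]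
      exact Ideal.subset_span ⟨i, rfl⟩
  · push Not at hall
    obtain ⟨a0, ha0⟩ := hall
    exact ⟨r, m, Q, a0, hm, hQ, ha0, hQe.symm⟩

end Pool.Agent.V113.FPR
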